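import Pool.Agent.Helper93.KS.St
import Pool.Agent.Helper15.AB.M_PQ
import Pool.Agent.Helper15.AB.M_FJ

/-!
# Project KS, module CHS: completion, sums over intervals
-/

set_option autoImplicit false

noncomputable section

namespace Pool.Agent.Helper47.KS

open Finset Filter Topology Pool.Agent.Helper93.KS
open Pool.Agent.Helper15.AB (ee Kl StDB StMT)
open Pool.Agent.Helper9.TW (gm Qs fm StMER StC9)
open Pool.Agent.Helper18.TR (StLevel)
open Pool.Agent.Helper93.KP (gk vk tk rn gn TK qk StC8P StVLP StRTS StWEI)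
open Pool.Agent.Helper15.AB.hPQ (ee_add ee_norm)
open Pool.Agent.Helper15.AB.hFJ (gg_bound harm_le orth range_split)
open Pool.Agent.Helper15.AB.GA (gg)

/-- the linear sum -/
private def G (r M₁ M₂ j : ℕ) : ℂ := ∑ m ∈ Ioc M₁ M₂, ee ((((j : ℤ) * (-(m : ℤ)) : ℤ) : ℝ) / r)

private theorem G_le (r M₁ M₂ j : ℕ) : ‖G r M₁ M₂ j‖ ≤ ((M₂ - M₁ : ℕ) : ℝ) := by
  unfold G
  refine (norm_sum_le _ _).trans ?_
  simp [ee_norm]

private theorem G_eq (r M₁ M₂ j : ℕ) : ‖G r M₁ M₂ j‖ = ‖gg (M₂ - M₁) (-((j : ℕ) : ℝ) / r)‖ := by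
  have h1 : Ioc M₁ M₂ = (range (M₂ - M₁)).image (fun h => h + (M₁ + 1)) := by
    ext m
    rw [mem_Ioc, mem_image]
    constructor
    · intro hm
      exact ⟨m - (M₁ + 1), by rw [mem_range]; omega, by omega⟩
    · rintro ⟨h, hh, rfl⟩
      rw [mem_range] at hh
      omega
  have h2 : G r M₁ M₂ j = ee (-(j : ℝ) / r * (M₁ + 1)) * gg (M₂ - M₁) (-((j : ℕ) : ℝ) / r) := by
    unfold G gg
    rw [h1, sum_image (by intro x _ y _ hxy; simpa using hxy), mul_sum]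
    refine sum_congr rfl fun h _ => ?_
    rw [← ee_add]
    congr 1
    push_cast
    ring
  rw [h2, norm_mul, ee_norm, one_mul]

private theorem G_sum (r M₁ M₂ : ℕ) (hr : 1 ≤ r) :
    ∑ j ∈ range r, ‖G r M₁ M₂ j‖ ≤ ((M₂ - M₁ : ℕ) : ℝ) + r * (1 + Real.log r) := by
  have hr0 : (0 : ℝ) < r := by exact_mod_cast hr
  rw [range_split r hr]
  have h0 : ‖G r M₁ M₂ 0‖ ≤ ((M₂ - M₁ : ℕ) : ℝ) := G_le r M₁ M₂ 0
  have h1 : ∀ j ∈ Icc 1 (r - 1), ‖G r M₁ M₂ j‖ ≤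
      (r : ℝ) / 2 * (1 / (j : ℝ)) + (r : ℝ) / 2 * (1 / ((r : ℝ) - j)) := by
    intro j hj
    rw [mem_Icc] at hj
    have hm : j % r = j := Nat.mod_eq_of_lt (by omega)
    rw [G_eq]
    have h2 := gg_bound (M₂ - M₁) r j hr (by omega)
    rw [hm] at h2
    refine h2.trans (le_of_eq ?_)
    ring
  have h3 : ∑ j ∈ Icc 1 (r - 1), (1 : ℝ) / ((r : ℝ) - j) = ∑ j ∈ Icc 1 (r - 1), (1 : ℝ) / j := by
    refine sum_nbij' (fun k => r - k) (fun k => r - k) ?_ ?_ ?_ ?_ ?_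
    · intro k hk; rw [mem_Icc] at hk ⊢; omega
    · intro k hk; rw [mem_Icc] at hk ⊢; omega
    · intro k hk; rw [mem_Icc] at hk; omega
    · intro k hk; rw [mem_Icc] at hk; omega
    · intro k hk
      rw [mem_Icc] at hk
      rw [Nat.cast_sub (by omega)]
  have h4 : ∑ j ∈ Icc 1 (r - 1), (1 : ℝ) / j ≤ 1 + Real.log r := by
    refine le_trans ?_ (harm_le r)
    refine sum_le_sum_of_subset_of_nonneg ?_ (fun _ _ _ => by positivity)
    exact Icc_subset_Icc le_rfl (by omega)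
  have h5 : ∑ j ∈ Icc 1 (r - 1), ‖G r M₁ M₂ j‖ ≤ r * (1 + Real.log r) := by
    refine (sum_le_sum h1).trans ?_
    rw [sum_add_distrib, ← mul_sum, ← mul_sum, h3]
    have : (r : ℝ) / 2 * ∑ j ∈ Icc 1 (r - 1), (1 : ℝ) / j ≤ r / 2 * (1 + Real.log r) :=
      mul_le_mul_of_nonneg_left h4 (by positivity)
    linarith
  linarith

private theorem comp (q : ℕ) (hq : 1 ≤ q) (f : ℕ → ℂ) (hf : ∀ n, f (n % q) = f n) (E M : ℕ) :
    (q : ℂ) * ∑ n ∈ Ioc E M, f n =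
      ∑ j ∈ range q, G q E M j * ∑ u ∈ range q, f u * ee ((((j : ℕ) : ℤ) : ℝ) * u / q) := by
  have h1 : ∀ n ∈ Ioc E M, (q : ℂ) * f n =
      ∑ u ∈ range q, f u * ∑ j ∈ range q, ee ((((j : ℤ) * ((u : ℤ) - n) : ℤ) : ℝ) / q) := by
    intro n _
    have hnq : n % q < q := Nat.mod_lt _ hq
    have key : ∀ u ∈ range q, f u * ∑ j ∈ range q, ee ((((j : ℤ) * ((u : ℤ) - n) : ℤ) : ℝ) / q) =
        if u = n % q then (q : ℂ) * f n else 0 := by
      intro u hu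
      rw [mem_range] at hu
      rw [orth q hq]
      have hiff : ((q : ℤ) ∣ (u : ℤ) - n) ↔ u = n % q := by
        constructor
        · intro h
          have h2 : n ≡ u [MOD q] := (Nat.modEq_iff_dvd).2 h
          have h3 : n % q = u % q := h2
          rw [Nat.mod_eq_of_lt hu] at h3
          exact h3.symm
        · rintro rfl
          exact (Nat.modEq_iff_dvd).1 (Nat.mod_modEq n q).symm
      by_cases h : u = n % q
      · rw [if_pos (hiff.2 h), if_pos h, h, hf, mul_comm]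
      · rw [if_neg (fun h' => h (hiff.1 h')), if_neg h, mul_zero]
    rw [sum_congr rfl key, sum_ite_eq', if_pos (mem_range.2 hnq)]
  rw [mul_sum, sum_congr rfl h1]
  have h2 : ∀ n ∈ Ioc E M, ∑ u ∈ range q, f u *
      ∑ j ∈ range q, ee ((((j : ℤ) * ((u : ℤ) - n) : ℤ) : ℝ) / q) =
      ∑ j ∈ range q, ee ((((j : ℤ) * (-(n : ℤ)) : ℤ) : ℝ) / q) *
        ∑ u ∈ range q, f u * ee ((((j : ℕ) : ℤ) : ℝ) * u / q) := by
    intro n _
    simp only [mul_sum]
    rw [sum_comm]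
    refine sum_congr rfl fun j _ => sum_congr rfl fun u _ => ?_
    have h3 : ee ((((j : ℤ) * ((u : ℤ) - n) : ℤ) : ℝ) / q) =
        ee ((((j : ℤ) * (-(n : ℤ)) : ℤ) : ℝ) / q) * ee ((((j : ℕ) : ℤ) : ℝ) * u / q) := by
      rw [← ee_add]
      congr 1
      push_cast
      ring
    rw [h3]
    ring
  rw [sum_congr rfl h2, sum_comm]
  refine sum_congr rfl fun j _ => ?_
  unfold G
  rw [sum_mul]

private theorem sx_congr (n m p : ℕ) (h : n ≡ m [MOD p]) : sx n p = sx m p := by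
  have hz : (p : ℤ) ∣ (n : ℤ) - m := (Nat.modEq_iff_dvd).1 h.symm
  obtain ⟨c, hc⟩ := hz
  have h1 : ((p : ℤ) ∣ (n : ℤ) ^ 2 - 4) ↔ ((p : ℤ) ∣ (m : ℤ) ^ 2 - 4) := by
    have e : (n : ℤ) ^ 2 - 4 = ((m : ℤ) ^ 2 - 4) + p * (c * (n + m)) := by
      have : (n : ℤ) ^ 2 - m ^ 2 = ((n : ℤ) - m) * (n + m) := by ring
      rw [hc] at this
      linarith
    rw [e]
    exact dvd_add_left (Dvd.intro _ rfl)
  have h2 : rn n p = rn m p := by
    unfold rn
    congr 1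
    refine filter_congr fun r _ => ?_
    have e : gk n (30 * r) = gk m (30 * r) + p * (c * ((30 * r : ℕ) : ℤ)) := by
      unfold gk
      have : ((30 * r : ℕ) : ℤ) * n - ((30 * r : ℕ) : ℤ) * m = ((n : ℤ) - m) * ((30 * r : ℕ) : ℤ) := by
        ring
      rw [hc] at this
      linarith
    rw [e]
    exact dvd_add_left (Dvd.intro _ rfl)
  unfold sx
  rw [h2]
  simp only [h1]

theorem hCHS (hC : StCS2) : StCHS := by
  intro S E H hS
  set q : ℕ := ∏ p ∈ S, p with hq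
  have hq1 : 1 ≤ q := Nat.one_le_iff_ne_zero.2 (prod_ne_zero_iff.2 fun p hp => (hS p hp).1.ne_zero)
  have hq0 : (0 : ℝ) < q := by exact_mod_cast hq1
  set f : ℕ → ℂ := fun n => ((∏ p ∈ S, sx n p : ℝ) : ℂ) with hf
  have hfp : ∀ n, f (n % q) = f n := by
    intro n
    simp only [hf]
    congr 1
    refine prod_congr rfl fun p hp => ?_
    apply sx_congr
    exact (Nat.mod_modEq n q).of_dvd (dvd_prod_of_mem _ hp)
  have hcomp := comp q hq1 f hfp E (E + H)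
  have hB0 : 0 ≤ (4 : ℝ) ^ S.card * √(q : ℝ) := by positivity
  have h1 : (q : ℝ) * ‖∑ n ∈ Ioc E (E + H), f n‖ ≤
      ((H : ℝ) + q * (1 + Real.log q)) * (4 ^ S.card * √(q : ℝ)) := by
    have e1 : (q : ℝ) * ‖∑ n ∈ Ioc E (E + H), f n‖ = ‖(q : ℂ) * ∑ n ∈ Ioc E (E + H), f n‖ := by
      rw [norm_mul, Complex.norm_natCast]
    rw [e1, hcomp]
    refine (norm_sum_le _ _).trans ?_
    calc ∑ j ∈ range q, ‖G q E (E + H) j * ∑ u ∈ range q, f u * ee ((((j : ℕ) : ℤ) : ℝ) * u / q)‖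
        ≤ ∑ j ∈ range q, ‖G q E (E + H) j‖ * (4 ^ S.card * √(q : ℝ)) := by
          refine sum_le_sum fun j _ => ?_
          rw [norm_mul]
          exact mul_le_mul_of_nonneg_left (hC S (j : ℤ) hS) (norm_nonneg _)
      _ = (∑ j ∈ range q, ‖G q E (E + H) j‖) * (4 ^ S.card * √(q : ℝ)) := by rw [sum_mul]
      _ ≤ _ := by
          refine mul_le_mul_of_nonneg_right ?_ hB0
          refine (G_sum q E (E + H) hq1).trans (le_of_eq ?_)
          rw [Nat.add_sub_cancel_left]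
  have h2 : |∑ n ∈ Ioc E (E + H), ∏ p ∈ S, sx n p| = ‖∑ n ∈ Ioc E (E + H), f n‖ := by
    rw [← Real.norm_eq_abs, ← Complex.norm_real]
    congr 1
    simp only [hf]
    rw [Complex.ofReal_sum]
  rw [h2]
  have h3 : (q : ℝ) * ‖∑ n ∈ Ioc E (E + H), f n‖ ≤
      q * (4 ^ S.card * √(q : ℝ) * ((H : ℝ) / q + 1 + Real.log q)) := by
    refine h1.trans (le_of_eq ?_)
    field_simp
    ring
  exact le_of_mul_le_mul_left h3 hq0

end Pool.Agent.Helper47.KS
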